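import Pool.Agent.H906R3.K6.Final

/-!
# The diffusivity of the percolation interface is `κ = 6`

Critical bond percolation on the cylinder of odd circumference `2n+1`, in its medial
picture (definitions: `Pool/Agent/H906R3/K6/Model.lean`).

* For every configuration there is exactly one `X` such that the interface which starts at the
  unpaired bottom edge ends at the top edge displaced by `X` (on the universal cover).
* The variance of `X` per row has a limit `D n` as the height tends to infinity.
* `2 π D n / (2n+1) = 6 + O(1/n)`: measured in angular units (circumference `2π`), the variance of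
  the winding angle of the interface per unit of height tends to `6`, the value of `κ` for
  Schramm-Loewner evolution in the scaling limit of percolation.
-/

namespace Pool.Agent.Results.MP_fe58d8_pr.AngularDiffusivity

open H906K Filter Topology

theorem result :
    (∀ (n M : ℕ) (c : Fin M → Fin (2 * n + 1) → Bool), ∃! X : ℤ, End n M c X) ∧
    ∃ D : ℕ → ℝ, (∀ n, Tendsto (fun M : ℕ => VarX n M / M) atTop (𝓝 (D n))) ∧
      ∃ K : ℝ, ∀ n : ℕ, |2 * Real.pi * D n / (2 * n + 1) - 6| ≤ K / (2 * n + 1) :=
  final

end Pool.Agent.Results.MP_fe58d8_pr.AngularDiffusivity
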