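import Pool.Agent.H31C.Main
import Pool.Agent.H863R4.Package
import Pool.Agent.H984Q.Limit
import Pool.Agent.H984Q.Rate

/-!
Critical bond percolation on `ℤ²` (`p = 1/2`): the exploration path in the plane slit along a half
line, started at the tip of the slit (left bank open, right bank dual-open). The exact law of the
side on which it leaves a strip, for all strips, and its scaling limit, the value of SLE(6).

Coordinates: the vertex `(u,v)` of `ℤ²` at mesh `δ` sits at `X + iY`, `X = δ (u - v)`,
`Y = δ (u + v)` (rotation by 45 degrees). The column of a point is `u - v`, its height `u + v`.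
-/

namespace Pool.Agent.Results.MP_fe58d8_pr.ExplorationExit

open MeasureTheory Filter Topology Set

/-- edges of `ℤ²`: `(u,v,false)` joins `(u,v)` and `(u+1,v)`; `(u,v,true)` joins `(u,v)` and
`(u,v+1)`. -/
abbrev Edge := ℤ × ℤ × Bool

/-- configurations (`true` = open) -/
abbrev Conf := Edge → Bool

/-- `x` and `y` are the two ends of an open edge -/
def OpenAdj (ω : Conf) (x y : ℤ × ℤ) : Prop :=
  (y = (x.1 + 1, x.2) ∧ ω (x.1, x.2, false) = true) ∨
  (x = (y.1 + 1, y.2) ∧ ω (y.1, y.2, false) = true) ∨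
  (y = (x.1, x.2 + 1) ∧ ω (x.1, x.2, true) = true) ∨
  (x = (y.1, y.2 + 1) ∧ ω (y.1, y.2, true) = true)

/-- bond percolation at `p = 1/2`: independent fair coins on the edges -/
noncomputable def perc : Measure Conf :=
  Measure.infinitePi (fun _ : Edge => (PMF.uniformOfFintype Bool).toMeasure)

/-! ## The exploration path -/

/-- A state `(x, d)` of the exploration path: the path passes next to the vertex `x`, which is on
its right, and looks at the edge which leaves `x` in the direction `d`. -/
abbrev State := (ℤ × ℤ) × Fin 4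

/-- the four directions, counterclockwise: `0` = right, `1` = up, `2` = left, `3` = down -/
def vec (d : Fin 4) : ℤ × ℤ :=
  match d with
  | 0 => (1, 0)
  | 1 => (0, 1)
  | 2 => (-1, 0)
  | 3 => (0, -1)

/-- the left bank of the slit: the vertices `(k,k)`, `k ≥ 0` (column `0`, height `≥ 0`) -/
def LeftBank (x : ℤ × ℤ) : Prop := x.1 = x.2 ∧ 0 ≤ x.1

/-- the edges which cross the slit: those between the columns `0` and `1` both ends of which have
height `≥ 0`. They cannot be used: the right bank of the slit is dual-open. -/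
def Cut (x y : ℤ × ℤ) : Prop :=
  0 ≤ x.1 + x.2 ∧ 0 ≤ y.1 + y.2 ∧
    ((x.1 - x.2 ≤ 0 ∧ 0 < y.1 - y.2) ∨ (y.1 - y.2 ≤ 0 ∧ 0 < x.1 - x.2))

open Classical in
/-- One step of the exploration path in the configuration `ω`: if the edge it looks at is open and
does not cross the slit, the path goes along this edge and turns counterclockwise (`d + 1`);
otherwise it turns clockwise around the vertex (`d + 3 = d - 1`). The left bank is open: at a vertex
of the left bank, when the path looks at the slit (`d = 0`), it goes on to the next vertex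
`x + (1,1)` of the left bank. -/
noncomputable def step (ω : Conf) (s : State) : State :=
  if LeftBank s.1 ∧ s.2 = 0 then (s.1 + (1, 1), 2)
  else if OpenAdj ω s.1 (s.1 + vec s.2) ∧ ¬ Cut s.1 (s.1 + vec s.2) then
    (s.1 + vec s.2, s.2 + 1)
  else (s.1, s.2 + 3)

/-- the exploration path: it starts at the tip, at the lowest vertex `(0,0)` of the left bank,
looking down -/
noncomputable def path (ω : Conf) (n : ℕ) : State := (step ω)^[n] ((0, 0), 3)

/-- the column of the vertex on the right of the path -/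
def rightCol (s : State) : ℤ := s.1.1 - s.1.2

/-- the column of the dual vertex (centre of a face) on the left of the path, which is
`x + (1/2,1/2)`, `x + (-1/2,1/2)`, `x + (-1/2,-1/2)`, `x + (1/2,-1/2)` for `d = 0, 1, 2, 3` -/
def leftCol (s : State) : ℤ :=
  match s.2 with
  | 0 => s.1.1 - s.1.2
  | 1 => s.1.1 - s.1.2 - 1
  | 2 => s.1.1 - s.1.2
  | 3 => s.1.1 - s.1.2 + 1

/-- the path reaches the column `b+1` (with its right side) before it reaches the column `-a` (with
its left side) -/
def RightFirst (a b : ℕ) : Set Conf :=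
  {ω | ∃ n, (b : ℤ) + 1 ≤ rightCol (path ω n) ∧ ∀ m ≤ n, -(a : ℤ) < leftCol (path ω m)}

/-- the path reaches the column `-a` (with its left side) before it reaches the column `b+1` (with
its right side) -/
def LeftFirst (a b : ℕ) : Set Conf :=
  {ω | ∃ n, leftCol (path ω n) ≤ -(a : ℤ) ∧ ∀ m ≤ n, rightCol (path ω m) < (b : ℤ) + 1}

/-! ## The exact law and Cardy's function -/

/-- rising factorial `(s)_k` -/
noncomputable def ris (s : ℝ) (k : ℕ) : ℝ := ∏ i ∈ Finset.range k, (s + i)

/-- the weights `w_k(L) = binom(L,k) (1/3)_k (1/3)_{L-k} / (2/3)_L` of the beta-binomial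
distribution with parameters `(1/3,1/3)` -/
noncomputable def w (L k : ℕ) : ℝ := (L.choose k : ℝ) * ris (1/3) k * ris (1/3) (L-k) / ris (2/3) L

/-- Cardy's function: the normalised primitive of `(t(1-t))^(-2/3)` -/
noncomputable def cardy (x : ℝ) : ℝ :=
  (∫ t in (0:ℝ)..x, (t*(1-t))^(-(2:ℝ)/3)) / ∫ t in (0:ℝ)..1, (t*(1-t))^(-(2:ℝ)/3)

/-- the slit strip `{-α < X < β} \ {X = 0, Y ≥ 0}` -/
def Dom (α β : ℝ) : Set ℂ := {w | -α < w.re ∧ w.re < β ∧ (w.re = 0 → w.im < 0)}

/-- `f` is an orientation reversing conformal map of the upper half-plane onto the slit strip, with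
the boundary correspondence: left wall, left bank of the slit, tip, right bank, right wall
= `(-∞,0)`, `(0,x)`, `x`, `(x,1)`, `(1,∞)`. -/
structure Uniformizes (α β x : ℝ) (f : ℂ → ℂ) : Prop where
  /-- the complex conjugate of `f` is holomorphic in the upper half-plane -/
  holo : DifferentiableOn ℂ (fun z => (starRingEnd ℂ) (f z)) {z | 0 < z.im}
  /-- `f` is a bijection of the upper half-plane onto the slit strip -/
  bij : BijOn f {z | 0 < z.im} (Dom α β)
  /-- `f` is continuous up to the boundary (without `0`, `1`) -/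
  cont : ContinuousOn f {z : ℂ | 0 ≤ z.im ∧ z ≠ 0 ∧ z ≠ 1}
  /-- `(-∞,0)` is mapped to the left wall -/
  leftWall : BijOn (fun t : ℝ => f t) (Iio 0) {w | w.re = -α}
  /-- `(1,∞)` is mapped to the right wall -/
  rightWall : BijOn (fun t : ℝ => f t) (Ioi 1) {w | w.re = β}
  /-- `(0,x)` is mapped to the left bank of the slit -/
  leftBank : BijOn (fun t : ℝ => f t) (Ioo 0 x) {w | w.re = 0 ∧ 0 < w.im}
  leftBank' : ∀ t ∈ Ioo 0 x, ∀ᶠ z in 𝓝[{z : ℂ | 0 < z.im}] (t : ℂ), (f z).re < 0
  /-- `(x,1)` is mapped to the right bank of the slit -/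
  rightBank : BijOn (fun t : ℝ => f t) (Ioo x 1) {w | w.re = 0 ∧ 0 < w.im}
  rightBank' : ∀ t ∈ Ioo x 1, ∀ᶠ z in 𝓝[{z : ℂ | 0 < z.im}] (t : ℂ), 0 < (f z).re
  /-- `x` is mapped to the tip of the slit -/
  tip : f (x : ℂ) = 0

theorem path_eq : path = Pool.Agent.H984Q.path := rfl

theorem right_eq (a b : ℕ) : RightFirst a b = Pool.Agent.H984Q.RightFirst a b := rfl

theorem left_eq (a b : ℕ) : LeftFirst a b = Pool.Agent.H984Q.LeftFirst a b := rfl

theorem perc_eq : perc = Pool.Agent.H988R2.Perc.perc := rfl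

/-- The exit law of the exploration path:
(1) the two events are measurable, disjoint, and cover the whole space up to a null set;
(2) for odd `a`, `b` their probabilities are exactly the sums of the beta-binomial(1/3,1/3) weights;
(3) for all distances `α, β > 0` of the slit to the two lines, as the mesh `δ` tends to `0`, the
probability that the exploration path reaches the right line first tends to `cardy x`,
`x = α/(α+β)`, and `x` is the conformal position of the starting point (the tip) in the strip cut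
along the slit;
(4) an explicit rate: for all `a, b ≥ 1` the distance to the limit value `cardy (a/(a+b))` is at most
`60 min(a,b)^(-2/3) (a+b)^(-1/3)`. -/
theorem result :
    (∀ a b : ℕ, MeasurableSet (RightFirst a b) ∧ MeasurableSet (LeftFirst a b) ∧
      Disjoint (RightFirst a b) (LeftFirst a b) ∧
      (1 ≤ a + b → ∀ᵐ ω ∂perc, ω ∈ RightFirst a b ∪ LeftFirst a b)) ∧
    (∀ a b : ℕ, Odd a → Odd b →
      perc.real (RightFirst a b) = ∑ k ∈ Finset.range (a+1), w (a+b+1) k ∧
      perc.real (LeftFirst a b) = ∑ k ∈ Finset.range (b+1), w (a+b+1) k) ∧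
    (∀ α β : ℝ, 0 < α → 0 < β →
      (∃ f : ℂ → ℂ, Uniformizes α β (α / (α + β)) f) ∧
      ∀ (δ : ℕ → ℝ) (a b : ℕ → ℕ), (∀ n, 0 < δ n) → Tendsto δ atTop (𝓝 0) →
        Tendsto (fun n => δ n * a n) atTop (𝓝 α) → Tendsto (fun n => δ n * b n) atTop (𝓝 β) →
        Tendsto (fun n => perc.real (RightFirst (a n) (b n))) atTop (𝓝 (cardy (α / (α + β)))) ∧
        Tendsto (fun n => perc.real (LeftFirst (a n) (b n))) atTop
          (𝓝 (1 - cardy (α / (α + β))))) ∧
    (∀ a b : ℕ, 1 ≤ a → 1 ≤ b → |perc.real (RightFirst a b) - cardy ((a : ℝ) / (a + b))| ≤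
      60 * ((min a b : ℕ) : ℝ) ^ (-(2/3) : ℝ) * ((a : ℝ) + b) ^ (-(1/3) : ℝ)) := by
  have hX := Pool.Agent.H31C.exact_cardy
  have hD := Pool.Agent.H31C.limit_cardy
  refine ⟨fun a b => ⟨(Pool.Agent.H984Q.m_events a b).1, (Pool.Agent.H984Q.m_events a b).2,
    Pool.Agent.H984Q.disj a b, fun h => Pool.Agent.H984Q.ae_exit hX a b h⟩, fun a b ha hb => ?_,
    fun α β hα hβ => ⟨?_, ?_⟩, fun a b ha hb => Pool.Agent.H984Q.right_rate hX ha hb⟩
  · have h := Pool.Agent.H984Q.exact_all hX a b ha hb
    exact ⟨h.1, h.2.1⟩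
  · obtain ⟨⟨f, hf⟩, -⟩ := Pool.Agent.H863R4.cardy_slit hX hD hα hβ
    exact ⟨f, ⟨hf.holo, hf.bij, hf.cont, hf.leftWall, hf.rightWall, hf.leftBank, hf.leftBank',
      hf.rightBank, hf.rightBank', hf.tip⟩⟩
  · intro δ a b hδ hδ0 ha hb
    obtain ⟨hs, hr⟩ := Pool.Agent.H984Q.mesh hα hβ δ a b hδ hδ0 ha hb
    have hx0 : 0 < α / (α + β) := by positivity
    have hx1 : α / (α + β) < 1 := by
      rw [div_lt_one (by positivity)]
      linarith
    have h1 := Pool.Agent.H984Q.lim_right hX hD a b _ hx0 hx1 hs hr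
    refine ⟨h1, ?_⟩
    have h2 : Tendsto (fun n => 1 - perc.real (RightFirst (a n) (b n))) atTop
        (𝓝 (1 - cardy (α / (α + β)))) := h1.const_sub 1
    refine h2.congr' ?_
    filter_upwards [hs.eventually_ge_atTop 1] with n hn
    have hn' : 1 ≤ a n + b n := by exact_mod_cast hn
    have h3 := Pool.Agent.H984Q.sum_one hX (a n) (b n) hn'
    have h4 : perc.real (RightFirst (a n) (b n)) + perc.real (LeftFirst (a n) (b n)) = 1 := h3
    linarith

end Pool.Agent.Results.MP_fe58d8_pr.ExplorationExit
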