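import Pool.Agent.H988R6.Four

/-!
Critical bond percolation on the square lattice: the (alternating) four-arm probability is of
order `n^(-5/4)`.
-/

namespace Pool.Agent.Results.MP_fe58d8_pr.FourArmSharp

open MeasureTheory

/-- The square lattice: two points of `ℤ²` are adjacent when they differ by one in exactly one
coordinate. -/
def Z2 : SimpleGraph (ℤ × ℤ) where
  Adj u v := |u.1 - v.1| + |u.2 - v.2| = 1
  symm := ⟨fun u v h => by rw [abs_sub_comm v.1, abs_sub_comm v.2]; exact h⟩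
  loopless := ⟨fun u h => by simp at h⟩

/-- Critical bond percolation: every edge of the square lattice is open (`true`) with
probability `1/2`, independently of the other edges. -/
noncomputable def crit : Measure (Z2.edgeSet → Bool) :=
  Measure.infinitePi (fun _ => ProbabilityTheory.bernoulliMeasure true false
    ⟨1/2, by norm_num, by norm_num⟩)

/-- The graph of the open edges inside the box `[-n,n]²`, except the edge `{(0,0),(1,0)}`. -/
def openBox (n : ℕ) (ω : Z2.edgeSet → Bool) : SimpleGraph (ℤ × ℤ) :=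
  SimpleGraph.fromEdgeSet {e | (∃ h : e ∈ Z2.edgeSet, ω ⟨e, h⟩ = true) ∧
    e ≠ s((0, 0), (1, 0)) ∧ ∀ v ∈ e, max |v.1| |v.2| ≤ n}

/-- The four-arm event of the edge `{(0,0),(1,0)}` to distance `n`: in the box `[-n,n]²` without
this edge, each of its two ends is joined to the boundary of the box by an open path, and the two
ends are in different open clusters. (By planar duality the last condition means that two dual
paths of closed edges go from the two sides of the edge to the boundary of the box.) -/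
def FourArm (n : ℕ) (ω : Z2.edgeSet → Bool) : Prop :=
  (∃ w : ℤ × ℤ, max |w.1| |w.2| = n ∧ (openBox n ω).Reachable (0, 0) w) ∧
  (∃ w : ℤ × ℤ, max |w.1| |w.2| = n ∧ (openBox n ω).Reachable (1, 0) w) ∧
  ¬ (openBox n ω).Reachable (0, 0) (1, 0)

open H974 H12S in
theorem openBox_adj (n : ℕ) (ω : Z2.edgeSet → Bool) (u v : ℤ × ℤ) :
    (openBox n ω).Adj u v ↔
      H974.Adj (((opn ω) ∩ ↑(RE (-(n:ℤ)) n (-n) n)) \ {H12S.e0 true}) u v := by
  have inbox : ∀ e : Edg, e ∈ RE (-(n:ℤ)) n (-n) n ↔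
      (max |(src e).1| |(src e).2| ≤ (n:ℤ) ∧ max |(tgt e).1| |(tgt e).2| ≤ (n:ℤ)) := by
    rintro ⟨x, y, _ | _⟩
    · rw [mem_RE_false, src_mk, tgt_false]
      simp only [max_le_iff, abs_le]
      omega
    · rw [mem_RE_true, src_mk, tgt_true]
      simp only [max_le_iff, abs_le]
      omega
  have ne0 : ∀ e : Edg, e = H12S.e0 true ↔ s(src e, tgt e) = s((0, 0), ((1:ℤ), (0:ℤ))) := by
    intro e
    have h0 : toE (H12S.e0 true) = ⟨s((0, 0), (1, 0)), edge_mem (H12S.e0 true)⟩ := rfl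
    constructor
    · rintro rfl; rfl
    · intro h
      apply toE_inj
      rw [h0]
      exact Subtype.ext h
  have inb2 : ∀ a b : ℤ × ℤ, (∀ w ∈ s(a, b), max |w.1| |w.2| ≤ (n:ℤ)) ↔
      (max |a.1| |a.2| ≤ (n:ℤ) ∧ max |b.1| |b.2| ≤ (n:ℤ)) := by
    intro a b
    constructor
    · intro h; exact ⟨h a (Sym2.mem_mk_left _ _), h b (Sym2.mem_mk_right _ _)⟩
    · rintro ⟨h1, h2⟩ w hw
      rcases Sym2.mem_iff.mp hw with rfl | rfl
      · exact h1
      · exact h2
  unfold openBox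
  rw [SimpleGraph.fromEdgeSet_adj]
  constructor
  · rintro ⟨⟨⟨h, hω⟩, hne, hbox⟩, -⟩
    obtain ⟨e, he⟩ := adj_edge (show sqLattice.Adj u v from (SimpleGraph.mem_edgeSet _).mp h)
    have hs : s(src e, tgt e) = s(u, v) := by
      rcases he with ⟨h1, h2⟩ | ⟨h1, h2⟩
      · rw [h1, h2]
      · rw [h1, h2]; exact Sym2.eq_swap
    have ht : toE e = ⟨s(u, v), h⟩ := Subtype.ext hs
    refine ⟨e, ⟨⟨?_, ?_⟩, ?_⟩, he⟩
    · show ω (toE e) = true
      rw [ht]; exact hω
    · rw [Finset.mem_coe, inbox, ← inb2, hs]; exact hbox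
    · rw [Set.mem_singleton_iff, ne0, hs]; exact hne
  · rintro ⟨e, ⟨⟨he, hb⟩, hne⟩, hcase⟩
    have hs : s(u, v) = s(src e, tgt e) := by
      rcases hcase with ⟨h1, h2⟩ | ⟨h1, h2⟩
      · rw [h1, h2]
      · rw [h1, h2]; exact Sym2.eq_swap
    refine ⟨?_, ?_⟩
    · show (∃ h : s(u, v) ∈ Z2.edgeSet, ω ⟨s(u, v), h⟩ = true) ∧ s(u, v) ≠ s((0, 0), (1, 0)) ∧
        ∀ w ∈ s(u, v), max |w.1| |w.2| ≤ (n:ℤ)
      rw [hs]
      refine ⟨⟨edge_mem e, he⟩, ?_, ?_⟩
      · rw [Set.mem_singleton_iff, ne0] at hne; exact hne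
      · rw [inb2, ← inbox]; exact Finset.mem_coe.mp hb
    · rintro rfl
      exact Adj_irrefl (⟨e, he, hcase⟩ : H974.Adj (opn ω) u u)

open H974 in
theorem openBox_reach (n : ℕ) (ω : Z2.edgeSet → Bool) (u v : ℤ × ℤ) :
    (openBox n ω).Reachable u v ↔
      Reach (((opn ω) ∩ ↑(RE (-(n:ℤ)) n (-n) n)) \ {H12S.e0 true}) u v := by
  rw [SimpleGraph.reachable_iff_reflTransGen]
  have : (openBox n ω).Adj =
      H974.Adj (((opn ω) ∩ ↑(RE (-(n:ℤ)) n (-n) n)) \ {H12S.e0 true}) := by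
    funext u v
    exact propext (openBox_adj n ω u v)
  rw [this]
  rfl

theorem mem_bd (n : ℕ) (w : ℤ × ℤ) : w ∈ H974.bdR (-(n:ℤ)) n (-n) n ↔ max |w.1| |w.2| = n := by
  obtain ⟨x, y⟩ := w
  show (H974.inR (-(n:ℤ)) n (-n) n (x, y) ∧ (x = -(n:ℤ) ∨ x = n ∨ y = -(n:ℤ) ∨ y = n)) ↔
    max |x| |y| = (n:ℤ)
  unfold H974.inR
  simp only
  rcases max_cases |x| |y| with ⟨h, h'⟩ | ⟨h, h'⟩ <;>
    rcases abs_cases x with ⟨h1, h2⟩ | ⟨h1, h2⟩ <;>
    rcases abs_cases y with ⟨h3, h4⟩ | ⟨h3, h4⟩ <;> omega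

/-- The four-arm probability of critical bond percolation on the square lattice is `n^(-5/4)` up
to constants. -/
theorem result : ∃ c C : ℝ, 0 < c ∧ 0 < C ∧ ∀ n : ℕ, 1 ≤ n →
    c * (n : ℝ) ^ (-(5 / 4 : ℝ)) ≤ crit.real {ω | FourArm n ω} ∧
    crit.real {ω | FourArm n ω} ≤ C * (n : ℝ) ^ (-(5 / 4 : ℝ)) := by
  obtain ⟨c, C, hc, hC, h⟩ := Pool.Agent.H988R6.a4b_sharp
  refine ⟨c, C, hc, hC, fun n hn => ?_⟩
  have e : crit.real {ω | FourArm n ω} = H12S.a4b (1/2) n true := by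
    rw [← Pool.Agent.H988R6.fourArm_law]
    have : {ω : Z2.edgeSet → Bool | FourArm n ω} =
        {ω | H12S.A4 (-n) n (-n) n (H12S.e0 true) (H974.opn ω)} := by
      ext ω
      show FourArm n ω ↔ H12S.A4 (-n) n (-n) n (H12S.e0 true) (H974.opn ω)
      unfold FourArm H12S.A4
      simp only [openBox_reach, mem_bd]
      rfl
    rw [this]
    rfl
  rw [e]
  exact h n hn

end Pool.Agent.Results.MP_fe58d8_pr.FourArmSharp
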