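import Pool.Agent.H984R4.NP.Final2
import Pool.Agent.H984R3.Per.UpPi
import Pool.Agent.H984R3.Per.LowEV
import Pool.Agent.H985R3.TA.Main
import Pool.Agent.H985R3.TA.STA

/-!
# The exploration path of critical bond percolation on `ℤ²` in its natural parametrisation

Critical bond percolation on `δ ℤ²` in a rectangle `D = (-A, B) × (0, H)`, with the counterclockwise
boundary arc from `a = t + i H` to `b = 0` wired and the other one dual-wired. The exploration path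
is parametrised by its number of steps: `Rect.curve` is the piecewise linear curve on `[0, 1]` run
at constant speed, and `Rect.time` is the number of steps times `δ ^ (7/4)`. The laws of
(curve, time) are tight, the limits are Hölder continuous for every exponent `< 4/7` (and for no
exponent `> 4/7`, on any subarc), and every subarc of every limit has Hausdorff dimension `7/4`.

Definitions: `Pool.Agent.H984R4.NP.Model` (`Rect`, `pos`, `clamp`, `pl`, `X`, `Rect.dm`,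
`Rect.curve`, `Rect.time`, `Rect.law`, `Rect.prob`), `Pool.Agent.H984R4.NP.Defs` (`Dm`, `Dm.edges`,
`Dm.wir`, `Dm.cfg`, `Dm.outer`, `Dm.walk`, `Dm.len`, `Dm.clu`, `Dm.dclu`) and
`Pool.Agent.H984R3.Per.Defs` (states, `ae`, `mv`, `rt`, `nxt`, `orb`).
-/

namespace Pool.Agent.Results.MP_fe58d8_pr.NaturalCurve

open H984N MeasureTheory Filter Topology

/-- The two-arm bounds in the form used below. -/
theorem inputs : (∃ c : ℝ, 0 < c ∧ H984P.LowA c (1/4)) ∧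
    (∃ C : ℝ, 0 < C ∧ H342P.TwoUp C (1/4)) ∧ (∃ C : ℝ, 0 < C ∧ AnnUp C) := by
  refine ⟨?_, ?_, ?_⟩
  · obtain ⟨B, m0, κ, hκ, h⟩ := H985T.EV_lower
    obtain ⟨c, hc, h2⟩ := H984P.lowA_of_EV (B := B) (m0 := m0) (s := 1/4) hκ (by norm_num)
      (fun m hm => by
        obtain ⟨ρ, c, s, c', f0, h1, h2, h3⟩ := h m hm
        exact ⟨ρ, c, s, c', f0, h2, h1, h3⟩)
    exact ⟨c, hc, h2⟩
  · obtain ⟨C, hC, h⟩ := H985T.pi2_upper
    exact ⟨C, hC, H984P.twoUp_of_pi2 hC (by norm_num) h⟩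
  · obtain ⟨C, hC, h⟩ := H985T.st_A
    exact ⟨C, hC, fun r R hr hR c1 c2 S => h r R hr hR c1 c2 S⟩

theorem result (R : Rect) :
    (∃ δ0 : ℝ, 0 < δ0 ∧ ∀ δ : ℝ, 0 < δ → δ ≤ δ0 → ∀ F : Finset H974.Edg, F ⊆ (R.dm δ).edges →
      (R.dm δ).walk F 0 = (R.dm δ).start ∧ (R.dm δ).walk F ((R.dm δ).len F) = Dm.stop ∧
      ∀ k ≤ (R.dm δ).len F, ((R.dm δ).walk F k).1 ∈ (R.dm δ).clu F ∧
        H984P.face ((R.dm δ).walk F k) ∈ (R.dm δ).dclu F) ∧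
    (∀ β ε : ℝ, 0 < β → β < 4/7 → 0 < ε → ∃ Λ δ0 : ℝ, 0 < Λ ∧ 0 < δ0 ∧
      ∀ δ : ℝ, 0 < δ → δ ≤ δ0 → 1 - ε ≤ R.prob δ (fun F =>
        (1 / Λ ≤ R.time δ F ∧ R.time δ F ≤ Λ) ∧
        ∀ s t : unitInterval, dist (R.curve δ F s) (R.curve δ F t) ≤
          Λ * |(s : ℝ) - t| ^ β)) ∧
    (∀ δ : ℕ → ℝ, (∀ i, 0 < δ i) → Tendsto δ atTop (𝓝 0) →
      ∃ φ : ℕ → ℕ, StrictMono φ ∧ ∃ μ : ProbabilityMeasure X,
        Tendsto (fun i => R.law (δ (φ i))) atTop (𝓝 μ)) ∧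
    (∀ δ : ℕ → ℝ, (∀ i, 0 < δ i) → Tendsto δ atTop (𝓝 0) → ∀ μ : ProbabilityMeasure X,
      Tendsto (fun i => R.law (δ i)) atTop (𝓝 μ) →
      ∀ᵐ p ∂(μ : Measure X), 0 < p.2 ∧ p.1 0 = R.a ∧ p.1 1 = 0 ∧
        (∀ s : unitInterval, p.1 s ∈ closure R.D) ∧
        (∀ s t : unitInterval, s < t → dimH (p.1 '' Set.Icc s t) = 7 / 4) ∧
        (∀ β : ℝ, 0 < β → β < 4/7 → ∃ Λ : ℝ, ∀ s t : unitInterval,
          dist (p.1 s) (p.1 t) ≤ Λ * |(s : ℝ) - t| ^ β) ∧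
        (∀ β : ℝ, 4/7 < β → ∀ s t : unitInterval, s < t →
          ¬ ∃ Λ : ℝ, ∀ u ∈ Set.Icc s t, ∀ v ∈ Set.Icc s t,
            dist (p.1 u) (p.1 v) ≤ Λ * |(u : ℝ) - v| ^ β)) := by
  obtain ⟨⟨c, hc, hL⟩, ⟨C, hC, hU⟩, C2, hC2, hA⟩ := inputs
  obtain ⟨h1, h2, h3⟩ := final_of hc hC hL hU hC2 hA R
  obtain ⟨κ, S, δ0, hκ, hS, hδ0, -, hsh⟩ := R.shape
  refine ⟨⟨δ0, hδ0, fun δ hδ hδ' F hF => ⟨rfl, walk_len (hsh δ hδ hδ').ok hF,
    fun k hk => walk_clu (hsh δ hδ hδ').ok hF hk⟩⟩, h1, h2, ?_⟩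
  intro δ hδ hlim μ hμ
  filter_upwards [h3 δ hδ hlim μ hμ] with p hp
  obtain ⟨g1, g2, g3, g4, g5, g6⟩ := hp
  exact ⟨g1, g2, g3, g4, g6, g5, fun β hβ s t hst => not_holderOn (g6 s t hst) hβ⟩

end Pool.Agent.Results.MP_fe58d8_pr.NaturalCurve
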